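import Pool.Agent.Helper9.DR.Alg

/-!
# Homogeneous double row matrix as an operator valued polynomial

`Dh T n k p`: `n` columns, all with parameter `p`, strands `k, ..., k + n - 1`.
-/

namespace Pool.Agent.Helper9.DR

open Module Finset

variable {K : Type*} [Field K]

/-- operator valued polynomial functions of degree at most `d` -/
def PF {E : Type*} [Ring E] [Algebra K E] (d : ℕ) (f : K → E) : Prop :=
  ∃ P : Polynomial E, P.natDegree ≤ d ∧ ∀ p : K, f p = P.eval (algebraMap K E p)

lemma eval_mul_central {E : Type*} [Ring E] [Algebra K E] (P Q : Polynomial E) (p : K) :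
    (P * Q).eval (algebraMap K E p) = P.eval (algebraMap K E p) * Q.eval (algebraMap K E p) :=
  Polynomial.eval₂_mul_noncomm (RingHom.id E) (algebraMap K E p)
    (fun k => (Algebra.commutes p (Q.coeff k)).symm)

namespace PF

open Polynomial

variable {E : Type*} [Ring E] [Algebra K E] {d d' : ℕ} {f g : K → E}

lemma mono (h : PF d f) (hd : d ≤ d') : PF d' f :=
  let ⟨P, h1, h2⟩ := h
  ⟨P, h1.trans hd, h2⟩

lemma const (a : E) : PF (K := K) 0 (fun _ => a) :=
  ⟨C a, by simp, fun p => by simp⟩

lemma idm : PF (K := K) (E := E) 1 (fun p => algebraMap K E p) :=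
  ⟨X, natDegree_X_le, fun p => by simp⟩

lemma add (hf : PF d f) (hg : PF d g) : PF d (fun p => f p + g p) := by
  obtain ⟨P, h1, h2⟩ := hf
  obtain ⟨Q, h3, h4⟩ := hg
  exact ⟨P + Q, natDegree_add_le_of_degree_le h1 h3, fun p => by simp only [h2, h4, eval_add]⟩

lemma neg (hf : PF d f) : PF d (fun p => - f p) := by
  obtain ⟨P, h1, h2⟩ := hf
  exact ⟨-P, by rwa [natDegree_neg], fun p => by simp only [h2, eval_neg]⟩

lemma sub (hf : PF d f) (hg : PF d g) : PF d (fun p => f p - g p) := by
  simpa only [sub_eq_add_neg] using hf.add hg.neg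

lemma mul (hf : PF d f) (hg : PF d' g) : PF (d + d') (fun p => f p * g p) := by
  obtain ⟨P, h1, h2⟩ := hf
  obtain ⟨Q, h3, h4⟩ := hg
  refine ⟨P * Q, natDegree_mul_le.trans (add_le_add h1 h3), fun p => ?_⟩
  simp only [h2, h4]
  exact (eval_mul_central _ _ _).symm

lemma smul {φ : K → K} (hφ : PF (K := K) (E := K) d φ) (hf : PF d' f) :
    PF (d + d') (fun p => φ p • f p) := by
  obtain ⟨P, h1, h2⟩ := hφ
  have h3 : PF (K := K) d (fun p => algebraMap K E (φ p)) := by
    refine ⟨P.map (algebraMap K E), natDegree_map_le.trans h1, fun p => ?_⟩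
    simp only [h2, eval_map, eval₂_at_apply]
    simp
  have h4 := h3.mul hf
  simpa only [Algebra.smul_def] using h4

lemma sum {ι : Type*} (S : Finset ι) {F : ι → K → E} (h : ∀ i ∈ S, PF d (F i)) :
    PF d (fun p => ∑ i ∈ S, F i p) := by
  classical
  induction S using Finset.induction_on with
  | empty => simpa using (const (K := K) (0 : E)).mono (Nat.zero_le d)
  | insert a S ha ih =>
    have := (h a (mem_insert_self a S)).add (ih fun i hi => h i (mem_insert_of_mem hi))
    simpa only [sum_insert ha] using this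

lemma poly (φ : K[X]) : PF (K := K) (E := K) φ.natDegree (fun p => φ.eval p) :=
  ⟨φ, le_rfl, fun p => by simp⟩

lemma poly' (φ : K[X]) (h : φ.natDegree ≤ d) : PF (K := K) (E := K) d (fun p => φ.eval p) :=
  (poly φ).mono h

lemma pow (hf : PF d f) : ∀ n : ℕ, PF (n * d) (fun p => f p ^ n)
  | 0 => by simpa using const (K := K) (1 : E)
  | n + 1 => by
      have := (pow hf n).mul hf
      simpa only [pow_succ, Nat.succ_mul] using this

lemma exists_coeff (hf : PF d f) :
    ∃ M : ℕ → E, ∀ p, f p = ∑ i ∈ range (d + 1), p ^ i • M i := by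
  obtain ⟨P, h1, h2⟩ := hf
  refine ⟨fun i => P.coeff i, fun p => ?_⟩
  rw [h2, eval_eq_sum_range' (Nat.lt_succ_of_le h1)]
  refine sum_congr rfl fun i _ => ?_
  rw [← map_pow, ← Algebra.commutes, ← Algebra.smul_def]

lemma of_coeff (M : ℕ → E) : PF (K := K) d (fun p => ∑ i ∈ range (d + 1), p ^ i • M i) := by
  refine ⟨∑ i ∈ range (d + 1), Polynomial.C (M i) * X ^ i, ?_, fun p => ?_⟩
  · refine natDegree_sum_le_of_forall_le _ _ fun i hi => ?_
    exact (natDegree_C_mul_X_pow_le _ _).trans (Nat.lt_succ_iff.1 (mem_range.1 hi))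
  · simp only [eval_finsetSum]
    refine sum_congr rfl fun i _ => ?_
    rw [eval_C_mul, eval_X_pow, ← map_pow, ← Algebra.commutes, ← Algebra.smul_def]

/-- identity principle -/
lemma ext [Infinite K] (hf : PF d f) (hg : PF d' g) (S : Set K) (hS : S.Finite)
    (h : ∀ p ∉ S, f p = g p) : f = g := by
  have hz : PF (max d d') (fun p => f p - g p) :=
    (hf.mono (le_max_left _ _)).sub (hg.mono (le_max_right _ _))
  obtain ⟨M, hM⟩ := hz.exists_coeff
  funext q
  rw [← sub_eq_zero, ← Module.forall_dual_apply_eq_zero_iff K]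
  intro φ
  have h1 : ∀ p : K, φ (f p - g p) =
      (∑ i ∈ range (max d d' + 1), Polynomial.C (φ (M i)) * X ^ i : K[X]).eval p := by
    intro p
    rw [hM p, map_sum, eval_finsetSum]
    refine sum_congr rfl fun i _ => ?_
    rw [map_smul, eval_C_mul, eval_X_pow, smul_eq_mul, mul_comm]
  have h2 : (∑ i ∈ range (max d d' + 1), Polynomial.C (φ (M i)) * X ^ i : K[X]) = 0 := by
    refine Polynomial.eq_zero_of_infinite_isRoot _ ?_
    refine (hS.infinite_compl).mono fun p hp => ?_
    have : φ (f p - g p) = 0 := by rw [h p hp, sub_self, map_zero]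
    rw [h1] at this
    exact this
  rw [h1, h2, eval_zero]

end PF

namespace Tower

variable {V : Type*} [AddCommGroup V] [Module K V] (T : Tower K V)

/-- homogeneous double row matrix -/
def Dh (n k : ℕ) (p : K) : End K V := T.D (fun _ => p) (fun _ => p) k (List.replicate n ())

/-- homogeneous dressed boundary operator -/
def Ah (n k : ℕ) (p : K) : End K V := T.A (fun _ => p) (fun _ => p) k (List.replicate n ())

lemma Dh_def (n k : ℕ) (p : K) :
    T.Dh n k p = T.D (fun _ => p) (fun _ => p) k (List.replicate n ()) := rfl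

lemma Dh_succ (n k : ℕ) (p : K) : T.Dh (n + 1) k p =
    (1 - (1 - p) * (1 - p)) • T.Ah n k p + ((1 - p) * (1 - p)) • T.Dh n (k + 1) p := rfl

lemma Ah_succ (n k : ℕ) (p : K) : T.Ah (n + 1) k p =
    T.X k p * T.Ah n (k + 1) p * T.X k p := rfl

lemma natDegree_one_sub : (1 - Polynomial.X : Polynomial K).natDegree ≤ 1 :=
  (Polynomial.natDegree_sub_le _ _).trans (by simp)

lemma pf_smul_one (a : End K V) : PF 1 (fun p : K => p • a) := by
  have := (PF.idm (K := K) (E := End K V)).mul (PF.const a)
  simpa only [Algebra.smul_def] using this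

lemma pf_sub_smul (a : End K V) : PF 1 (fun p : K => (1 - p) • a) := by
  have := (((PF.const (K := K) (1 : End K V)).mono (Nat.zero_le 1)).sub PF.idm).mul (PF.const a)
  simpa only [Algebra.smul_def, map_sub, map_one] using this

lemma X_pf (k : ℕ) : PF 1 (fun p => T.X k p) :=
  (pf_smul_one 1).add (pf_sub_smul (T.e k))

lemma Ah_pf (n : ℕ) : ∀ k, PF (2 * n) (T.Ah n k) := by
  induction n with
  | zero => intro k; exact PF.const 1
  | succ n ih =>
    intro k
    have := ((T.X_pf k).mul (ih (k + 1))).mul (T.X_pf k)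
    exact this.mono (by omega)

lemma Dh_pf (n : ℕ) : ∀ k, PF (2 * n) (T.Dh n k) := by
  induction n with
  | zero => intro k; exact PF.const 1
  | succ n ih =>
    intro k
    have h1 : PF (K := K) (E := K) 2 (fun p => (1 - p) * (1 - p)) := by
      have := PF.poly' (K := K) (d := 2) ((1 - Polynomial.X) * (1 - Polynomial.X)) (by
        refine Polynomial.natDegree_mul_le.trans ?_
        have : (1 - Polynomial.X : Polynomial K).natDegree ≤ 1 := natDegree_one_sub
        omega)
      simpa using this
    have h2 : PF (K := K) (E := K) 2 (fun p => 1 - (1 - p) * (1 - p)) :=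
      ((PF.const (1 : K)).mono (by omega)).sub h1
    have h3 : PF (K := K) (2 + 2 * n) (T.Dh (n + 1) k) :=
      (h2.smul (T.Ah_pf n k)).add (h1.smul (ih (k + 1)))
    exact h3.mono (by omega)

/-- (a) the homogeneous double row matrix is a polynomial of degree at most `2 n` -/
theorem Dh_coeff (n k : ℕ) :
    ∃ M : ℕ → End K V, ∀ p, T.Dh n k p = ∑ i ∈ range (2 * n + 1), p ^ i • M i :=
  (T.Dh_pf n k).exists_coeff

/-- (c) value at `1` -/
theorem Dh_one (n k : ℕ) : T.Dh n k 1 = 1 := by
  have hA : ∀ n k, T.Ah n k 1 = 1 := by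
    intro n
    induction n with
    | zero => intro k; rfl
    | succ n ih => intro k; rw [Ah_succ, ih, X_one, mul_one, mul_one]
  cases n with
  | zero => rfl
  | succ n => rw [Dh_succ, hA]; simp

/-- (c) value at `0` -/
theorem Dh_zero (n : ℕ) : ∀ k, T.Dh n k 0 = 1 := by
  induction n with
  | zero => intro k; rfl
  | succ n ih => intro k; rw [Dh_succ, ih]; simp

/-- (c) crossing symmetry -/
theorem Dh_cross [Infinite K] (n k : ℕ) (p : K) : T.Dh n k (1 - p) = T.Dh n k p := by
  have h1 : PF (2 * n) (fun p => T.Dh n k (1 - p)) := by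
    obtain ⟨M, hM⟩ := T.Dh_coeff n k
    refine ⟨∑ i ∈ range (2 * n + 1), Polynomial.C (M i) * (1 - Polynomial.X) ^ i, ?_, fun p => ?_⟩
    · refine Polynomial.natDegree_sum_le_of_forall_le _ _ fun i hi => ?_
      refine (Polynomial.natDegree_C_mul_le _ _).trans ?_
      refine Polynomial.natDegree_pow_le.trans ?_
      have : (1 - Polynomial.X : Polynomial (End K V)).natDegree ≤ 1 :=
        (Polynomial.natDegree_sub_le _ _).trans (by
          simp only [Polynomial.natDegree_one, Nat.zero_le, sup_of_le_right,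
            Polynomial.natDegree_X_le])
      calc i * (1 - Polynomial.X : Polynomial (End K V)).natDegree ≤ i * 1 :=
            Nat.mul_le_mul_left _ this
        _ ≤ 2 * n := by rw [mul_one]; exact Nat.lt_succ_iff.1 (mem_range.1 hi)
    · simp only [hM, Polynomial.eval_finsetSum]
      refine sum_congr rfl fun i _ => ?_
      rw [Polynomial.eval_C_mul]
      have : ∀ i : ℕ, ((1 - Polynomial.X : Polynomial (End K V)) ^ i).eval
          (algebraMap K (End K V) p) = algebraMap K (End K V) ((1 - p) ^ i) := by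
        intro i
        induction i with
        | zero => simp
        | succ i ih =>
          rw [pow_succ, eval_mul_central, ih]
          simp [pow_succ]
      rw [this, ← Algebra.commutes, ← Algebra.smul_def]
  have := PF.ext h1 (T.Dh_pf n k) {1, -1} (by simp) (fun p hp => by
    have hp1 : p ≠ 1 := fun h => hp (by simp [h])
    have hp2 : p ≠ -1 := fun h => hp (by simp [h])
    have h3 : 1 - p * p ≠ 0 := by
      intro h
      have : (1 - p) * (1 + p) = 0 := by linear_combination h
      rcases mul_eq_zero.1 this with h | h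
      · exact hp1 (by linear_combination -h)
      · exact hp2 (by linear_combination h)
    exact T.crossD (c := (2 * p - p * p) / (1 - p * p)) _ k (fun j _ => by
      rw [div_mul_cancel₀ _ h3]
      ring))
  exact congrFun this p

/-- (b) commutation -/
theorem Dh_comm [Infinite K] (n k : ℕ) (p q : K) :
    T.Dh n k p * T.Dh n k q = T.Dh n k q * T.Dh n k p := by
  have h1 : PF (2 * n + 0) (fun p => T.Dh n k p * T.Dh n k q) := (T.Dh_pf n k).mul (PF.const _)
  have h2 : PF (0 + 2 * n) (fun p => T.Dh n k q * T.Dh n k p) := (PF.const _).mul (T.Dh_pf n k)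
  by_cases hq1 : q = 1
  · rw [hq1, T.Dh_one, one_mul, mul_one]
  by_cases hq0 : q = 0
  · rw [hq0, T.Dh_zero, one_mul, mul_one]
  have hq1' : 1 - q ≠ 0 := fun h => hq1 (by linear_combination -h)
  have := PF.ext h1 h2 {1 / (1 - q), -q / (1 - q), (q - 1) / q, 1 / q} (by simp) (fun p hp => by
    have e1 : 1 - p + p * q ≠ 0 := by
      intro h
      exact hp (by left; rw [eq_div_iff hq1']; linear_combination -h)
    have e2 : p + q - p * q ≠ 0 := by
      intro h
      exact hp (by right; left; rw [eq_div_iff hq1']; linear_combination h)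
    have e3 : 1 - q + p * q ≠ 0 := by
      intro h
      exact hp (by right; right; left; rw [eq_div_iff hq0]; linear_combination h)
    have e4 : p * q ≠ 1 := by
      intro h
      exact hp (by right; right; right; rw [Set.mem_singleton_iff, eq_div_iff hq0]; exact h)
    set a := (1 - q + p * q) / (1 - p + p * q) with ha
    set b := (p + q - 1) / (p + q - p * q) with hb
    have ha1 : a * (1 - p + p * q) = 1 - q + p * q := by rw [ha, div_mul_cancel₀ _ e1]
    have hb1 : b * (p + q - p * q) = p + q - 1 := by rw [hb, div_mul_cancel₀ _ e2]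
    refine T.comm (a := a) (b := b) _ k ⟨fun _ _ => ?_, fun _ _ => ?_, fun _ _ => ?_,
      fun _ _ => ?_⟩ (div_ne_zero e3 e1) ?_
    · show 1 - p - q + b * (p + q - p * q) = 0
      rw [hb1]; ring
    · show 1 - a - q + p * (a + q - a * q) = 0
      linear_combination -ha1
    · show 1 - a - q + p * (a + q - a * q) = 0
      linear_combination -ha1
    · show 1 - p - q + b * (p + q - p * q) = 0
      rw [hb1]; ring
    · intro h
      rw [h] at hb1
      exact e4 (by linear_combination -hb1))
  exact congrFun this p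

/-- polynomial form of the fused double row -/
def Psi (p : K) : ℕ → ℕ → End K V
  | 0, k => 1 - T.e k
  | n + 1, k => (-(p • (1 : End K V)) + (p - 1) • T.e k + T.e (k + 1) * T.e k) * Psi p n (k + 1) *
      ((1 - T.e (k + 1)) * (-(p • (1 : End K V)) + T.e k * T.e (k + 1)) * (1 - T.e k))

lemma Psi_pf (n : ℕ) : ∀ k, PF (2 * n) (fun p => T.Psi p n k) := by
  induction n with
  | zero => intro k; exact PF.const _
  | succ n ih =>
    intro k
    have h0 : PF 1 (fun p : K => -(p • (1 : End K V))) := (pf_smul_one 1).neg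
    have h1 : PF 1 (fun p : K => (p - 1) • T.e k) := by
      have := (pf_sub_smul (K := K) (T.e k)).neg
      refine ⟨this.choose, this.choose_spec.1, fun p => ?_⟩
      rw [← this.choose_spec.2 p]
      module
    have h2 : PF (K := K) 1 (fun _ => T.e (k + 1) * T.e k) := (PF.const _).mono (by omega)
    have h3 : PF (K := K) 1 (fun _ => T.e k * T.e (k + 1)) := (PF.const _).mono (by omega)
    have h4 : PF (K := K) 0 (fun _ => 1 - T.e (k + 1)) := PF.const _
    have h5 : PF (K := K) 0 (fun _ => 1 - T.e k) := PF.const _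
    have h6 := (((h0.add h1).add h2).mul (ih (k + 1))).mul ((h4.mul (h0.add h3)).mul h5)
    exact h6.mono (by omega)

lemma Phi_Psi (n : ℕ) {p : K} (hp : p ≠ 0) : ∀ k,
    p ^ (2 * n) • T.Phi (fun _ => 1 - 1 / p) (fun _ => 1 - 1 / p) k (List.replicate n ()) =
      T.Psi p n k := by
  induction n with
  | zero => intro k; simp [Phi, Psi]
  | succ n ih =>
    intro k
    rw [List.replicate_succ]
    simp only [Phi, Psi]
    rw [← ih (k + 1)]
    have h1 : -(p • (1 : End K V)) + (p - 1) • T.e k + T.e (k + 1) * T.e k =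
        p • (-1 + (1 - 1 / p) • T.e k + (1 - (1 - 1 / p)) • (T.e (k + 1) * T.e k)) := by
      simp only [smul_add, smul_smul, smul_neg]
      rw [show p * (1 - 1 / p) = p - 1 by field_simp, show p * (1 - (1 - 1 / p)) = 1 by field_simp; ring,
        one_smul]
    have h2 : -(p • (1 : End K V)) + T.e k * T.e (k + 1) =
        p • (-1 + (1 - (1 - 1 / p)) • (T.e k * T.e (k + 1))) := by
      simp only [smul_add, smul_smul, smul_neg]
      rw [show p * (1 - (1 - 1 / p)) = 1 by field_simp; ring, one_smul]
    rw [h1, h2]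
    simp only [smul_mul_assoc, mul_smul_comm, smul_smul]
    congr 1
    ring

lemma pfK {d : ℕ} (φ : Polynomial K) (h : φ.natDegree ≤ d) {f : K → K}
    (hf : ∀ p, f p = φ.eval p) : PF (K := K) (E := K) d f := by
  have := PF.poly' φ h
  rwa [show (fun p => φ.eval p) = f from funext fun p => (hf p).symm] at this

/-- `p^(2n) D(1 - 1/p)` is a polynomial -/
lemma Dt_exists (n k : ℕ) : ∃ Dt : K → End K V, PF (4 * n) Dt ∧
    ∀ p : K, p ≠ 0 → Dt p = p ^ (2 * n) • T.Dh n k (1 - 1 / p) := by
  obtain ⟨M, hM⟩ := T.Dh_coeff n k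
  refine ⟨fun p => ∑ i ∈ range (2 * n + 1), (p ^ (2 * n - i) * (p - 1) ^ i) • M i, ?_,
    fun p hp => ?_⟩
  · refine PF.sum _ fun i hi => ?_
    have hi' : i ≤ 2 * n := Nat.lt_succ_iff.1 (mem_range.1 hi)
    have h1 : PF (K := K) (E := K) (2 * n) (fun p => p ^ (2 * n - i) * (p - 1) ^ i) :=
      pfK (Polynomial.X ^ (2 * n - i) * (Polynomial.X - 1) ^ i) (by
        refine Polynomial.natDegree_mul_le.trans ?_
        have a1 : (Polynomial.X ^ (2 * n - i) : Polynomial K).natDegree ≤ 2 * n - i :=
          Polynomial.natDegree_X_pow_le _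
        have a2 : ((Polynomial.X - 1) ^ i : Polynomial K).natDegree ≤ i := by
          refine Polynomial.natDegree_pow_le.trans ?_
          have : (Polynomial.X - 1 : Polynomial K).natDegree ≤ 1 :=
            (Polynomial.natDegree_sub_le _ _).trans (by simp)
          calc i * (Polynomial.X - 1 : Polynomial K).natDegree ≤ i * 1 :=
                Nat.mul_le_mul_left _ this
            _ = i := mul_one _
        omega) (fun p => by simp)
    exact (h1.smul (PF.const (M i))).mono (by omega)
  · simp only [hM, smul_sum, smul_smul]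
    refine sum_congr rfl fun i hi => ?_
    have hi' : i ≤ 2 * n := Nat.lt_succ_iff.1 (mem_range.1 hi)
    congr 1
    have h1 : p ^ (2 * n) = p ^ (2 * n - i) * p ^ i := by rw [← pow_add]; congr 1; omega
    rw [h1, mul_assoc, ← mul_pow]
    congr 2
    field_simp

/-- (d) fusion, polynomial form -/
theorem Dh_fusion [Infinite K] (n k : ℕ) : ∃ M : ℕ → End K V, ∀ p : K, p ≠ 0 →
    (p * (2 - p) * (2 * p - 1) * p ^ (2 * n)) • (T.Dh n k (1 - 1 / p) * T.Dh n k p - 1) =
      ((p + 1) ^ 2 * (1 - p) ^ (2 * n + 2)) • ∑ i ∈ range (2 * n + 1), p ^ i • M i := by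
  have hX : PF (2 * n)
      (fun p => -(T.k k * (T.k (k + 1) * T.Psi p n (k + 2) * T.c (k + 1)) * T.c k)) := by
    have := ((((PF.const (K := K) (T.k k)).mul (((PF.const (T.k (k + 1))).mul
      (T.Psi_pf n (k + 2))).mul (PF.const (T.c (k + 1))))).mul (PF.const (T.c k)))).neg
    exact this.mono (by omega)
  obtain ⟨M, hM⟩ := hX.exists_coeff
  refine ⟨M, ?_⟩
  obtain ⟨Dt, hDt, hDt'⟩ := T.Dt_exists n k
  have hL : PF (3 + (4 * n + 2 * n)) (fun p =>
      (p * (2 - p) * (2 * p - 1)) • (Dt p * T.Dh n k p - p ^ (2 * n) • (1 : End K V))) := by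
    have h1 : PF (K := K) (E := K) 3 (fun p => p * (2 - p) * (2 * p - 1)) :=
      pfK (Polynomial.X * (2 - Polynomial.X) * (2 * Polynomial.X - 1)) (by compute_degree)
        (fun p => by simp)
    have h2 : PF (K := K) (E := K) (2 * n) (fun p => p ^ (2 * n)) :=
      pfK (Polynomial.X ^ (2 * n)) (Polynomial.natDegree_X_pow_le _) (fun p => by simp)
    have h3 := (h2.smul (PF.const (1 : End K V))).mono (show 2 * n + 0 ≤ 4 * n + 2 * n by omega)
    exact h1.smul ((hDt.mul (T.Dh_pf n k)).sub h3)
  have hR : PF (2 * n + 4 + 2 * n) (fun p => ((p + 1) ^ 2 * (1 - p) ^ (2 * n + 2)) •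
      -(T.k k * (T.k (k + 1) * T.Psi p n (k + 2) * T.c (k + 1)) * T.c k)) := by
    refine PF.smul (pfK ((Polynomial.X + 1) ^ 2 * (1 - Polynomial.X) ^ (2 * n + 2)) ?_
      (fun p => by simp)) hX
    refine Polynomial.natDegree_mul_le.trans ?_
    have a1 : ((Polynomial.X + 1) ^ 2 : Polynomial K).natDegree ≤ 2 := by compute_degree
    have a2 : ((1 - Polynomial.X) ^ (2 * n + 2) : Polynomial K).natDegree ≤ 2 * n + 2 := by
      refine Polynomial.natDegree_pow_le.trans ?_
      calc (2 * n + 2) * (1 - Polynomial.X : Polynomial K).natDegree ≤ (2 * n + 2) * 1 :=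
            Nat.mul_le_mul_left _ natDegree_one_sub
        _ = 2 * n + 2 := mul_one _
    omega
  have key := PF.ext hL hR {0, 1 / 2} (by simp) (fun p hp => by
    have hp0 : p ≠ 0 := fun h => hp (by simp [h])
    have h21 : 2 * p - 1 ≠ 0 := by
      intro h
      by_cases h2 : (2 : K) = 0
      · rw [h2] at h; norm_num at h
      · exact hp (by right; rw [Set.mem_singleton_iff, eq_div_iff h2]; linear_combination h)
    set b := (p ^ 2 - 1) / (2 * p - 1) with hb
    have hb1 : b * (2 * p - 1) = p ^ 2 - 1 := by rw [hb, div_mul_cancel₀ _ h21]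
    have hip : 1 / p * p = 1 := by rw [one_div, inv_mul_cancel₀ hp0]
    have hF := T.fusion (α := fun _ => 1 - 1 / p) (β := fun _ => 1 - 1 / p) (γ := fun _ => p)
      (δ := fun _ => p) (b := b) (List.replicate n ()) k ⟨fun _ _ => by
        show (1 - 1 / p) * p = p - 1; linear_combination -hip, fun _ _ => by
        show (1 - 1 / p) * p = p - 1; linear_combination -hip, fun _ _ => by
        show 1 - (1 - 1 / p) - p + b * ((1 - 1 / p) + p - (1 - 1 / p) * p) = 0
        have : (1 - 1 / p) + p - (1 - 1 / p) * p = (2 * p - 1) / p := by field_simp; ring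
        rw [this, mul_div_assoc', hb1]
        field_simp
        ring⟩
    rw [hDt' p hp0]
    have hprod : (List.map (fun _ : Unit => (1 - p) * (1 - p)) (List.replicate n ())).prod =
        (1 - p) ^ (2 * n) := by
      rw [List.map_replicate, List.prod_replicate, ← sq, ← pow_mul]
    rw [hprod] at hF
    have hF' : (1 - b) • (T.Dh n k (1 - 1 / p) * T.Dh n k p - 1) =
        -((b ^ 2 * (1 - p) ^ (2 * n)) • (T.k k * (T.k (k + 1) *
          T.Phi (fun _ => 1 - 1 / p) (fun _ => 1 - 1 / p) (k + 2) (List.replicate n ())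
            * T.c (k + 1)) * T.c k)) := hF
    rw [← T.Phi_Psi n hp0 (k + 2)]
    simp only [mul_smul_comm, smul_mul_assoc]
    set Z := T.k k * (T.k (k + 1) * T.Phi (fun _ => 1 - 1 / p) (fun _ => 1 - 1 / p) (k + 2)
      (List.replicate n ()) * T.c (k + 1)) * T.c k with hZ
    set Y := T.Dh n k (1 - 1 / p) * T.Dh n k p with hY
    have h1b : (1 - b) * (2 * p - 1) = p * (2 - p) := by linear_combination -hb1
    have e1 : (p * (2 - p) * (2 * p - 1)) • (p ^ (2 * n) • Y - p ^ (2 * n) • (1 : End K V)) =
        ((2 * p - 1) ^ 2 * p ^ (2 * n)) • ((1 - b) • (Y - 1)) := by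
      rw [← smul_sub, smul_smul, smul_smul]
      congr 1
      linear_combination (-(2 * p - 1) * p ^ (2 * n)) * h1b
    rw [e1, hF', smul_neg, smul_neg, smul_smul, smul_smul]
    congr 2
    have : b ^ 2 * (2 * p - 1) ^ 2 = (p ^ 2 - 1) ^ 2 := by rw [← mul_pow, hb1]
    rw [show (1 - p) ^ (2 * n + 2) = (1 - p) ^ (2 * n) * (1 - p) ^ 2 by rw [pow_add]]
    linear_combination (p ^ (2 * n) * (1 - p) ^ (2 * n)) * this)
  intro p hp
  have h1 := congrFun key p
  rw [hDt' p hp, smul_mul_assoc, ← smul_sub, smul_smul, hM p] at h1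
  exact h1

end Tower

end Pool.Agent.Helper9.DR
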