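import Mathlib

/-!
# Planar towers and the double row transfer matrix of the Temperley-Lieb algebra at loop weight 1

`Tower K V`: cups `c i` and caps `k i` acting on one space `V` (infinitely many strands `0, 1, 2, ...`),
with loop weight 1.  `A` is the dressed boundary operator, `D` the double row transfer matrix.
Main results: reflection equation `RE`, commutation `comm`, crossing `cross`, unitarity `unit`,
fusion `fusion`.
-/

namespace Pool.Agent.Helper9.DR

open Module

variable {K : Type*} [Field K] {V : Type*} [AddCommGroup V] [Module K V]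

/-- planar tower with loop weight 1 -/
structure Tower (K : Type*) [Field K] (V : Type*) [AddCommGroup V] [Module K V] where
  c : ℕ → End K V
  k : ℕ → End K V
  kc : ∀ i, k i * c i = 1
  kcr : ∀ i, k i * c (i + 1) = 1
  kcl : ∀ i, k (i + 1) * c i = 1
  sc : ∀ i j, i ≤ j → (c (j + 2) * k (j + 2)) * c i = c i * (c j * k j)
  sk : ∀ i j, i ≤ j → k i * (c (j + 2) * k (j + 2)) = (c j * k j) * k i

namespace Tower

variable (T : Tower K V)

/-- Temperley-Lieb generators -/
def e (i : ℕ) : End K V := T.c i * T.k i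

lemma e_def (i : ℕ) : T.e i = T.c i * T.k i := rfl

lemma ec {i j : ℕ} (h : i ≤ j) : T.e (j + 2) * T.c i = T.c i * T.e j := T.sc i j h

lemma ke {i j : ℕ} (h : i ≤ j) : T.k i * T.e (j + 2) = T.e j * T.k i := T.sk i j h

lemma k_e (i : ℕ) : T.k i * T.e i = T.k i := by
  rw [e_def, ← mul_assoc, T.kc, one_mul]

lemma e_c (i : ℕ) : T.e i * T.c i = T.c i := by
  rw [e_def, mul_assoc, T.kc, mul_one]

lemma kec (i : ℕ) : T.k i * T.e (i + 1) * T.c i = 1 := by
  rw [e_def, ← mul_assoc, T.kcr, one_mul, T.kcl]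

lemma ke1 (i : ℕ) : T.k i * T.e (i + 1) = T.k (i + 1) := by
  rw [e_def, ← mul_assoc, T.kcr, one_mul]

lemma e1c (i : ℕ) : T.e (i + 1) * T.c i = T.c (i + 1) := by
  rw [e_def, mul_assoc, T.kcl, mul_one]

lemma ee (i : ℕ) : T.e i * T.e i = T.e i := by
  conv_lhs => rw [T.e_def i, ← mul_assoc, mul_assoc (T.c i), T.kc, mul_one]
  rfl

lemma eee (i : ℕ) : T.e i * T.e (i + 1) * T.e i = T.e i := by
  simp only [e_def]
  calc T.c i * T.k i * (T.c (i + 1) * T.k (i + 1)) * (T.c i * T.k i)
      = T.c i * (T.k i * T.c (i + 1)) * (T.k (i + 1) * T.c i) * T.k i := by noncomm_ring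
    _ = _ := by rw [T.kcr, T.kcl, mul_one, mul_one]

lemma eee' (i : ℕ) : T.e (i + 1) * T.e i * T.e (i + 1) = T.e (i + 1) := by
  simp only [e_def]
  calc T.c (i + 1) * T.k (i + 1) * (T.c i * T.k i) * (T.c (i + 1) * T.k (i + 1))
      = T.c (i + 1) * (T.k (i + 1) * T.c i) * (T.k i * T.c (i + 1)) * T.k (i + 1) := by
        noncomm_ring
    _ = _ := by rw [T.kcr, T.kcl, mul_one, mul_one]

lemma ecomm {i j : ℕ} (h : i + 2 ≤ j) : T.e j * T.e i = T.e i * T.e j := by
  obtain ⟨m, rfl⟩ : ∃ m, j = m + 2 := ⟨j - 2, by omega⟩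
  have hm : i ≤ m := by omega
  calc T.e (m + 2) * T.e i = (T.e (m + 2) * T.c i) * T.k i := by
        rw [T.e_def i, mul_assoc]
    _ = T.c i * (T.e m * T.k i) := by rw [T.ec hm, mul_assoc]
    _ = T.e i * T.e (m + 2) := by rw [← T.ke hm, T.e_def i, mul_assoc]

/-- percolation tile -/
def X (i : ℕ) (p : K) : End K V := p • (1 : End K V) + (1 - p) • T.e i

lemma X_def (i : ℕ) (p : K) : T.X i p = p • (1 : End K V) + (1 - p) • T.e i := rfl

lemma X_one (i : ℕ) : T.X i 1 = 1 := by simp [X_def]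

lemma X_zero (i : ℕ) : T.X i 0 = T.e i := by simp [X_def]

lemma X_mul (i : ℕ) (p q : K) : T.X i p * T.X i q = T.X i (p * q) := by
  simp only [X_def, add_mul, mul_add, smul_mul_assoc, mul_smul_comm, one_mul, mul_one, T.ee]
  module

lemma X_e (i : ℕ) (p : K) : T.X i p * T.e i = T.e i := by
  simp only [X_def, add_mul, smul_mul_assoc, one_mul, T.ee]
  module

lemma e_X (i : ℕ) (p : K) : T.e i * T.X i p = T.e i := by
  simp only [X_def, mul_add, mul_smul_comm, mul_one, T.ee]
  module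

lemma X_c (i : ℕ) (p : K) : T.X i p * T.c i = T.c i := by
  simp only [X_def, add_mul, smul_mul_assoc, one_mul, T.e_c]
  module

lemma k_X (i : ℕ) (p : K) : T.k i * T.X i p = T.k i := by
  simp only [X_def, mul_add, mul_smul_comm, mul_one, T.k_e]
  module

lemma kXc (i : ℕ) (p : K) : T.k i * T.X (i + 1) p * T.c i = 1 := by
  simp only [X_def, mul_add, add_mul, smul_mul_assoc, mul_smul_comm, mul_one, T.kec, T.kc]
  module

lemma Xc {i j : ℕ} (h : i ≤ j) (p : K) : T.X (j + 2) p * T.c i = T.c i * T.X j p := by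
  simp only [X_def, add_mul, mul_add, smul_mul_assoc, mul_smul_comm, mul_one, one_mul, T.ec h]

lemma kX {i j : ℕ} (h : i ≤ j) (p : K) : T.k i * T.X (j + 2) p = T.X j p * T.k i := by
  simp only [X_def, add_mul, mul_add, smul_mul_assoc, mul_smul_comm, mul_one, one_mul, T.ke h]

lemma Xcomm {i j : ℕ} (h : i + 2 ≤ j) (p q : K) : T.X j p * T.X i q = T.X i q * T.X j p := by
  simp only [X_def, add_mul, mul_add, smul_mul_assoc, mul_smul_comm, mul_one, one_mul, T.ecomm h]
  module

/-- the condition for the Yang-Baxter equation with middle parameter `q` -/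
def YB (p q r : K) : Prop := 1 - p - r + q * (p + r - p * r) = 0

lemma YB.symm {p q r : K} (h : YB p q r) : YB r q p := by
  unfold YB at *; linear_combination h

lemma ybe (i : ℕ) {p q r : K} (h : YB p q r) :
    T.X i p * T.X (i + 1) q * T.X i r = T.X (i + 1) r * T.X i q * T.X (i + 1) p := by
  unfold YB at h
  simp only [X_def, add_mul, mul_add, smul_mul_assoc, mul_smul_comm, mul_one, one_mul, T.ee,
    T.eee, T.eee']
  linear_combination (norm := module) h • (T.e i - T.e (i + 1))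

lemma ybe' (i : ℕ) {p q r : K} (h : YB p q r) :
    T.X (i + 1) p * T.X i q * T.X (i + 1) r = T.X i r * T.X (i + 1) q * T.X i p :=
  (T.ybe i h.symm).symm

/-! ### The dressed boundary operator and the double row matrix -/

variable {ι : Type*}

/-- `X k (α j₁) X (k+1) (α j₂) ... X (k+1) (β j₂) X k (β j₁)` -/
def A (α β : ι → K) : ℕ → List ι → End K V
  | _, [] => 1
  | k, (j :: l) => T.X k (α j) * A α β (k + 1) l * T.X k (β j)

/-- double row matrix on the strands `k, k+1, ...` -/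
def D (α β : ι → K) : ℕ → List ι → End K V
  | _, [] => 1
  | k, (j :: l) => (1 - (1 - α j) * (1 - β j)) • T.A α β k l
      + ((1 - α j) * (1 - β j)) • D α β (k + 1) l

variable (α β γ δ : ι → K)

@[simp] lemma A_nil (k : ℕ) : T.A α β k [] = 1 := rfl

lemma A_cons (k : ℕ) (j : ι) (l : List ι) :
    T.A α β k (j :: l) = T.X k (α j) * T.A α β (k + 1) l * T.X k (β j) := rfl

@[simp] lemma D_nil (k : ℕ) : T.D α β k [] = 1 := rfl

lemma D_cons (k : ℕ) (j : ι) (l : List ι) :
    T.D α β k (j :: l) = (1 - (1 - α j) * (1 - β j)) • T.A α β k l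
      + ((1 - α j) * (1 - β j)) • T.D α β (k + 1) l := rfl

lemma Ac (l : List ι) : ∀ {i k : ℕ}, i ≤ k →
    T.A α β (k + 2) l * T.c i = T.c i * T.A α β k l := by
  induction l with
  | nil => intro i k h; simp
  | cons j l ih =>
    intro i k h
    have := ih (i := i) (k := k + 1) (by omega)
    rw [A_cons, A_cons, mul_assoc, T.Xc h, ← mul_assoc, mul_assoc (T.X (k + 2) (α j)),
      show k + 2 + 1 = k + 1 + 2 by ring, this, ← mul_assoc (T.X (k + 2) (α j)), T.Xc h]
    simp only [mul_assoc]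

lemma kA (l : List ι) : ∀ {i k : ℕ}, i ≤ k →
    T.k i * T.A α β (k + 2) l = T.A α β k l * T.k i := by
  induction l with
  | nil => intro i k h; simp
  | cons j l ih =>
    intro i k h
    have := ih (i := i) (k := k + 1) (by omega)
    rw [A_cons, A_cons, ← mul_assoc, ← mul_assoc, T.kX h, mul_assoc (T.X k (α j)),
      show k + 2 + 1 = k + 1 + 2 by ring, this, mul_assoc, mul_assoc, T.kX h]
    simp only [mul_assoc]

lemma Dc (l : List ι) : ∀ {i k : ℕ}, i ≤ k →
    T.D α β (k + 2) l * T.c i = T.c i * T.D α β k l := by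
  induction l with
  | nil => intro i k h; simp
  | cons j l ih =>
    intro i k h
    have := ih (i := i) (k := k + 1) (by omega)
    rw [D_cons, D_cons, add_mul, mul_add, smul_mul_assoc, smul_mul_assoc, mul_smul_comm,
      mul_smul_comm, T.Ac _ _ l h, show k + 2 + 1 = k + 1 + 2 by ring, this]

lemma kD (l : List ι) : ∀ {i k : ℕ}, i ≤ k →
    T.k i * T.D α β (k + 2) l = T.D α β k l * T.k i := by
  induction l with
  | nil => intro i k h; simp
  | cons j l ih =>
    intro i k h
    have := ih (i := i) (k := k + 1) (by omega)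
    rw [D_cons, D_cons, add_mul, mul_add, smul_mul_assoc, smul_mul_assoc, mul_smul_comm,
      mul_smul_comm, T.kA _ _ l h, show k + 2 + 1 = k + 1 + 2 by ring, this]

lemma eA (l : List ι) {i k : ℕ} (h : i ≤ k) :
    T.e i * T.A α β (k + 2) l = T.A α β (k + 2) l * T.e i := by
  rw [e_def, mul_assoc, T.kA _ _ l h, ← mul_assoc, ← T.Ac _ _ l h, mul_assoc]

lemma eD (l : List ι) {i k : ℕ} (h : i ≤ k) :
    T.e i * T.D α β (k + 2) l = T.D α β (k + 2) l * T.e i := by
  rw [e_def, mul_assoc, T.kD _ _ l h, ← mul_assoc, ← T.Dc _ _ l h, mul_assoc]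

lemma XA (l : List ι) {i k : ℕ} (h : i ≤ k) (p : K) :
    T.X i p * T.A α β (k + 2) l = T.A α β (k + 2) l * T.X i p := by
  simp only [X_def, add_mul, mul_add, smul_mul_assoc, mul_smul_comm, mul_one, one_mul,
    T.eA _ _ l h]

/-- one extra column, seen from the left -/
lemma capcol (l : List ι) (k : ℕ) (a b : K)
    (hD : T.k (k + 1) * T.A α β (k + 2) l * T.c (k + 1) = T.D α β (k + 1) l) :
    T.k k * (T.X (k + 1) a * T.A α β (k + 2) l * T.X (k + 1) b) * T.c k =
      (1 - (1 - a) * (1 - b)) • T.A α β k l + ((1 - a) * (1 - b)) • T.D α β (k + 1) l := by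
  have h1 : T.k k * T.A α β (k + 2) l * T.c k = T.A α β k l := by
    rw [T.kA _ _ l le_rfl, mul_assoc, T.kc, mul_one]
  have h2 : T.k k * (T.A α β (k + 2) l * T.e (k + 1)) * T.c k = T.A α β k l := by
    rw [← mul_assoc, T.kA _ _ l le_rfl, mul_assoc, mul_assoc, ← mul_assoc (T.k k), T.kec, mul_one]
  have h3 : T.k k * (T.e (k + 1) * T.A α β (k + 2) l) * T.c k = T.A α β k l := by
    rw [mul_assoc, mul_assoc, T.Ac _ _ l le_rfl, ← mul_assoc, ← mul_assoc, T.kec, one_mul]
  have h4 : T.k k * (T.e (k + 1) * T.A α β (k + 2) l * T.e (k + 1)) * T.c k =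
      T.D α β (k + 1) l := by
    rw [← hD]
    calc _ = (T.k k * T.e (k + 1)) * T.A α β (k + 2) l * (T.e (k + 1) * T.c k) := by
          noncomm_ring
      _ = _ := by rw [T.ke1, T.e1c]
  simp only [X_def, add_mul, mul_add, smul_mul_assoc, mul_smul_comm, mul_one, one_mul, h1, h2, h3,
    h4]
  module

/-- the double row matrix is the partial trace of the dressed boundary operator -/
lemma cap (l : List ι) : ∀ k : ℕ, T.k k * T.A α β (k + 1) l * T.c k = T.D α β k l := by
  induction l with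
  | nil => intro k; simp [T.kc]
  | cons j l ih =>
    intro k
    rw [A_cons, D_cons]
    exact T.capcol α β l k (α j) (β j) (ih (k + 1))

lemma capcol' (l : List ι) (k : ℕ) (a b : K) :
    T.k k * (T.X (k + 1) a * T.A α β (k + 2) l * T.X (k + 1) b) * T.c k =
      (1 - (1 - a) * (1 - b)) • T.A α β k l + ((1 - a) * (1 - b)) • T.D α β (k + 1) l :=
  T.capcol α β l k a b (T.cap α β l (k + 1))

lemma eAe (l : List ι) (k : ℕ) :
    T.e k * T.A α β (k + 1) l * T.e k = T.D α β (k + 2) l * T.e k := by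
  calc T.e k * T.A α β (k + 1) l * T.e k
      = T.c k * (T.k k * T.A α β (k + 1) l * T.c k) * T.k k := by
        rw [e_def]; noncomm_ring
    _ = _ := by rw [T.cap, ← T.Dc _ _ l le_rfl, mul_assoc]; rfl

/-- abstract step of the reflection equation -/
lemma re_step {R : Type*} [Ring R] {a0 a1 b0 b1 α0 α1 β0 β1 γ0 γ1 δ0 δ1 A B : R}
    (h1 : β1 * b0 * γ1 = γ0 * b1 * β0) (h2 : a0 * α1 * γ0 = γ1 * α0 * a1)
    (h3 : a1 * β0 * δ1 = δ0 * β1 * a0) (h4 : α0 * b1 * δ0 = δ1 * b0 * α1)
    (ih : a1 * A * b1 * B = B * b1 * A * a1)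
    (c1 : γ0 * A = A * γ0) (c2 : β0 * B = B * β0) (c3 : α0 * B = B * α0)
    (c4 : δ0 * A = A * δ0) :
    a0 * (α1 * A * β1) * b0 * (γ1 * B * δ1) = (γ1 * B * δ1) * b0 * (α1 * A * β1) * a0 := by
  calc a0 * (α1 * A * β1) * b0 * (γ1 * B * δ1)
      = a0 * α1 * A * (β1 * b0 * γ1) * B * δ1 := by simp only [mul_assoc]
    _ = a0 * α1 * (A * γ0) * b1 * (β0 * B) * δ1 := by rw [h1]; simp only [mul_assoc]
    _ = a0 * α1 * (γ0 * A) * b1 * (B * β0) * δ1 := by rw [c1, c2]
    _ = (a0 * α1 * γ0) * A * b1 * B * β0 * δ1 := by simp only [mul_assoc]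
    _ = γ1 * α0 * (a1 * A * b1 * B) * β0 * δ1 := by rw [h2]; simp only [mul_assoc]
    _ = γ1 * (α0 * B) * b1 * A * (a1 * β0 * δ1) := by rw [ih]; simp only [mul_assoc]
    _ = γ1 * B * α0 * b1 * (A * δ0) * β1 * a0 := by rw [c3, h3]; simp only [mul_assoc]
    _ = γ1 * B * (α0 * b1 * δ0) * A * β1 * a0 := by rw [← c4]; simp only [mul_assoc]
    _ = _ := by rw [h4]; simp only [mul_assoc]

/-- the conditions on the columns for two spectral parameters `u` (columns `α, β`) and `v`
(columns `γ, δ`), `a = p(u-v)`, `b = p(u+v)` -/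
structure Cond (a b : K) (l : List ι) : Prop where
  h1 : ∀ j ∈ l, YB (β j) b (γ j)
  h2 : ∀ j ∈ l, YB a (α j) (γ j)
  h3 : ∀ j ∈ l, YB a (β j) (δ j)
  h4 : ∀ j ∈ l, YB (α j) b (δ j)

variable {α β γ δ}

lemma Cond.tail {a b : K} {j : ι} {l : List ι} (h : Cond α β γ δ a b (j :: l)) :
    Cond α β γ δ a b l :=
  ⟨fun i hi => h.h1 i (List.mem_cons_of_mem _ hi), fun i hi => h.h2 i (List.mem_cons_of_mem _ hi),
    fun i hi => h.h3 i (List.mem_cons_of_mem _ hi), fun i hi => h.h4 i (List.mem_cons_of_mem _ hi)⟩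

/-- reflection equation -/
theorem RE {a b : K} (l : List ι) : ∀ (k : ℕ), Cond α β γ δ a b l →
    T.X k a * T.A α β (k + 1) l * T.X k b * T.A γ δ (k + 1) l =
      T.A γ δ (k + 1) l * T.X k b * T.A α β (k + 1) l * T.X k a := by
  induction l with
  | nil =>
    intro k _
    simp only [A_nil, mul_one, one_mul, T.X_mul, mul_comm a b]
  | cons j l ih =>
    intro k h
    have hj : j ∈ j :: l := List.mem_cons_self
    rw [A_cons, A_cons]
    exact re_step (T.ybe' k (h.h1 j hj)) (T.ybe k (h.h2 j hj)) (T.ybe' k (h.h3 j hj))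
      (T.ybe k (h.h4 j hj)) (ih (k + 1) h.tail) (T.XA _ _ l le_rfl _) (T.XA _ _ l le_rfl _)
      (T.XA _ _ l le_rfl _) (T.XA _ _ l le_rfl _)

/-- the combination commuting with the dressed boundary operator -/
lemma MA {a b : K} (l : List ι) (k : ℕ) (h : Cond α β γ δ a b l) :
    ((1 - (1 - a) * (1 - b)) • T.A α β k l + ((1 - a) * (1 - b)) • T.D α β (k + 1) l)
        * T.A γ δ k l =
      T.A γ δ k l * ((1 - (1 - a) * (1 - b)) • T.A α β k l
        + ((1 - a) * (1 - b)) • T.D α β (k + 1) l) := by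
  have h0 := congrArg (fun Z => T.k k * Z * T.c k) (T.RE l (k + 1) h)
  have e1 : T.k k * (T.X (k + 1) a * T.A α β (k + 2) l * T.X (k + 1) b
      * T.A γ δ (k + 2) l) * T.c k =
      (T.k k * (T.X (k + 1) a * T.A α β (k + 2) l * T.X (k + 1) b) * T.c k) * T.A γ δ k l := by
    calc _ = T.k k * (T.X (k + 1) a * T.A α β (k + 2) l * T.X (k + 1) b)
          * (T.A γ δ (k + 2) l * T.c k) := by simp only [mul_assoc]
      _ = _ := by rw [T.Ac _ _ l le_rfl]; simp only [mul_assoc]
  have e2 : T.k k * (T.A γ δ (k + 2) l * T.X (k + 1) b * T.A α β (k + 2) l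
      * T.X (k + 1) a) * T.c k =
      T.A γ δ k l * (T.k k * (T.X (k + 1) b * T.A α β (k + 2) l * T.X (k + 1) a) * T.c k) := by
    calc _ = (T.k k * T.A γ δ (k + 2) l) * (T.X (k + 1) b
          * T.A α β (k + 2) l * T.X (k + 1) a) * T.c k := by simp only [mul_assoc]
      _ = _ := by rw [T.kA _ _ l le_rfl]; simp only [mul_assoc]
  have h1 : T.k k * (T.X (k + 1) a * T.A α β (k + 2) l * T.X (k + 1) b
      * T.A γ δ (k + 2) l) * T.c k = T.k k * (T.A γ δ (k + 2) l * T.X (k + 1) b
      * T.A α β (k + 2) l * T.X (k + 1) a) * T.c k := h0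
  rw [e1, e2, T.capcol', T.capcol'] at h1
  rw [h1, mul_comm (1 - b) (1 - a)]

/-- commutation, before cancelling the scalar factor -/
lemma comm_aux {a b : K} (l : List ι) (k : ℕ) (h : Cond α β γ δ a b l) :
    (a * (1 - b)) • (T.D α β k l * T.D γ δ k l - T.D γ δ k l * T.D α β k l) = 0 := by
  have hA := congrArg (fun Z => T.k k * Z * T.c k) (T.MA l (k + 1) h)
  have hB := congrArg (fun Z => T.k k * Z * T.c k) (T.RE l k h)
  set S1 := T.k k * (T.A α β (k + 1) l * T.A γ δ (k + 1) l) * T.c k with hS1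
  set S2 := T.k k * (T.A γ δ (k + 1) l * T.A α β (k + 1) l) * T.c k with hS2
  have f1 : T.k k * (T.D α β (k + 1 + 1) l * T.A γ δ (k + 1) l) * T.c k =
      T.D α β k l * T.D γ δ k l := by
    rw [← mul_assoc, T.kD _ _ l le_rfl, mul_assoc, mul_assoc, ← mul_assoc (T.k k), T.cap]
  have f2 : T.k k * (T.A γ δ (k + 1) l * T.D α β (k + 1 + 1) l) * T.c k =
      T.D γ δ k l * T.D α β k l := by
    rw [mul_assoc, mul_assoc, T.Dc _ _ l le_rfl, ← mul_assoc (T.A γ δ (k + 1) l), ← mul_assoc,
      ← mul_assoc, T.cap]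
  have hA' : (1 - (1 - a) * (1 - b)) • S1 + ((1 - a) * (1 - b)) • (T.D α β k l * T.D γ δ k l) =
      (1 - (1 - a) * (1 - b)) • S2 + ((1 - a) * (1 - b)) • (T.D γ δ k l * T.D α β k l) := by
    simpa only [add_mul, mul_add, smul_mul_assoc, mul_smul_comm, f1, f2, ← hS1, ← hS2] using hA
  have g1 : T.k k * (T.X k a * T.A α β (k + 1) l * T.X k b * T.A γ δ (k + 1) l) * T.c k =
      b • S1 + (1 - b) • (T.D α β k l * T.D γ δ k l) := by
    rw [mul_assoc (T.X k a), mul_assoc (T.X k a), ← mul_assoc (T.k k), T.k_X]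
    simp only [X_def, add_mul, mul_add, smul_mul_assoc, mul_smul_comm, mul_one, ← hS1]
    congr 2
    rw [← T.cap α β l k, ← T.cap γ δ l k, e_def]
    simp only [mul_assoc]
  have g2 : T.k k * (T.A γ δ (k + 1) l * T.X k b * T.A α β (k + 1) l * T.X k a) * T.c k =
      b • S2 + (1 - b) • (T.D γ δ k l * T.D α β k l) := by
    rw [mul_assoc (T.k k), mul_assoc _ (T.X k a), T.X_c]
    simp only [X_def, add_mul, mul_add, smul_mul_assoc, mul_smul_comm, mul_one, hS2]
    rw [← T.cap α β l k, ← T.cap γ δ l k, e_def]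
    simp only [mul_assoc]
  rw [g1, g2] at hB
  linear_combination (norm := module) (1 - (1 - a) * (1 - b)) • hB - b • hA'

theorem comm {a b : K} (l : List ι) (k : ℕ) (h : Cond α β γ δ a b l) (ha : a ≠ 0) (hb : b ≠ 1) :
    T.D α β k l * T.D γ δ k l = T.D γ δ k l * T.D α β k l := by
  have h0 := T.comm_aux l k h
  have : a * (1 - b) ≠ 0 := mul_ne_zero ha (sub_ne_zero.2 (Ne.symm hb))
  exact sub_eq_zero.1 ((smul_eq_zero.1 h0).resolve_left this)

/-! ### Crossing -/

/-- `A(pi/3 - u) = c A(u) + (1 - c) D(u)` -/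
theorem crossA {c : K} (l : List ι) : ∀ (k : ℕ),
    (∀ j ∈ l, c * (1 - γ j * δ j) = γ j + δ j - γ j * δ j) →
    T.A (fun j => 1 - δ j) (fun j => 1 - γ j) k l =
      c • T.A γ δ k l + (1 - c) • T.D γ δ (k + 1) l := by
  induction l with
  | nil => intro k _; simp only [A_nil, D_nil]; module
  | cons j l ih =>
    intro k h
    have hj := h j List.mem_cons_self
    rw [A_cons, A_cons, D_cons, ih (k + 1) (fun i hi => h i (List.mem_cons_of_mem _ hi))]
    have h1 := T.eAe γ δ l k
    have h2 : T.e k * T.D γ δ (k + 2) l = T.D γ δ (k + 2) l * T.e k := T.eD _ _ l le_rfl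
    have h3 : T.D γ δ (k + 2) l * T.e k * T.e k = T.D γ δ (k + 2) l * T.e k := by
      rw [mul_assoc, T.ee]
    simp only [X_def, add_mul, mul_add, smul_mul_assoc, mul_smul_comm, mul_one, one_mul, h1, h2, h3]
    linear_combination (norm := module) hj • (T.A γ δ (k + 1) l - T.D γ δ (k + 2) l * T.e k)

/-- crossing symmetry of the double row matrix -/
theorem crossD {c : K} (l : List ι) : ∀ (k : ℕ),
    (∀ j ∈ l, c * (1 - γ j * δ j) = γ j + δ j - γ j * δ j) →
    T.D (fun j => 1 - δ j) (fun j => 1 - γ j) k l = T.D γ δ k l := by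
  induction l with
  | nil => intro k _; simp only [D_nil]
  | cons j l ih =>
    intro k h
    have hj := h j List.mem_cons_self
    have ht : ∀ i ∈ l, c * (1 - γ i * δ i) = γ i + δ i - γ i * δ i :=
      fun i hi => h i (List.mem_cons_of_mem _ hi)
    rw [D_cons, D_cons, ih (k + 1) ht, T.crossA l k ht]
    linear_combination (norm := module) hj • (T.A γ δ k l - T.D γ δ (k + 1) l)

/-- unitarity -/
theorem unit (l : List ι) : ∀ (k : ℕ), (∀ j ∈ l, γ j ≠ 0 ∧ δ j ≠ 0) →
    T.A γ δ k l * T.A (fun j => (δ j)⁻¹) (fun j => (γ j)⁻¹) k l = 1 := by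
  induction l with
  | nil => intro k _; simp
  | cons j l ih =>
    intro k h
    have hj := h j List.mem_cons_self
    rw [A_cons, A_cons]
    calc T.X k (γ j) * T.A γ δ (k + 1) l * T.X k (δ j) * (T.X k (δ j)⁻¹ *
          T.A (fun j => (δ j)⁻¹) (fun j => (γ j)⁻¹) (k + 1) l * T.X k (γ j)⁻¹)
        = T.X k (γ j) * T.A γ δ (k + 1) l * (T.X k (δ j) * T.X k (δ j)⁻¹) *
          T.A (fun j => (δ j)⁻¹) (fun j => (γ j)⁻¹) (k + 1) l * T.X k (γ j)⁻¹ := by
          simp only [mul_assoc]
      _ = T.X k (γ j) * (T.A γ δ (k + 1) l *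
          T.A (fun j => (δ j)⁻¹) (fun j => (γ j)⁻¹) (k + 1) l) * T.X k (γ j)⁻¹ := by
          rw [T.X_mul, mul_inv_cancel₀ hj.2, T.X_one, mul_one]; simp only [mul_assoc]
      _ = 1 := by
          rw [ih (k + 1) (fun i hi => h i (List.mem_cons_of_mem _ hi)), mul_one, T.X_mul,
            mul_inv_cancel₀ hj.1, T.X_one]

/-! ### Fusion -/

variable (α β γ δ)

/-- two lines dressed by the columns -/
def W (b : K) (k : ℕ) (l : List ι) : End K V :=
  T.A α β (k + 1) l * T.X k b * T.A γ δ (k + 1) l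

/-- the condition `u = v + pi/3` for the columns, `b = p(u + v)` -/
structure FCond (b : K) (l : List ι) : Prop where
  h1 : ∀ j ∈ l, α j * γ j = γ j - 1
  h2 : ∀ j ∈ l, β j * δ j = δ j - 1
  h3 : ∀ j ∈ l, YB (β j) b (γ j)

/-- fused double row -/
def Phi : ℕ → List ι → End K V
  | k, [] => 1 - T.e k
  | k, (j :: l) => (-1 + α j • T.e k + (1 - α j) • (T.e (k + 1) * T.e k)) * Phi (k + 1) l *
      ((1 - T.e (k + 1)) * (-1 + (1 - β j) • (T.e k * T.e (k + 1))) * (1 - T.e k))

variable {α β γ δ}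

lemma FCond.tail {b : K} {j : ι} {l : List ι} (h : FCond α β γ δ b (j :: l)) :
    FCond α β γ δ b l :=
  ⟨fun i hi => h.h1 i (List.mem_cons_of_mem _ hi), fun i hi => h.h2 i (List.mem_cons_of_mem _ hi),
    fun i hi => h.h3 i (List.mem_cons_of_mem _ hi)⟩

lemma W_cons {b : K} {j : ι} {l : List ι} (k : ℕ) (h : YB (β j) b (γ j)) :
    T.W α β γ δ b k (j :: l) = T.X (k + 1) (α j) * T.X k (γ j) * T.W α β γ δ b (k + 1) l *
      (T.X k (β j) * T.X (k + 1) (δ j)) := by
  have h1 := T.ybe' k h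
  have c1 := T.XA α β l (le_refl k) (γ j)
  have c2 := T.XA γ δ l (le_refl k) (β j)
  unfold W
  rw [A_cons, A_cons]
  calc _ = T.X (k + 1) (α j) * T.A α β (k + 2) l *
        (T.X (k + 1) (β j) * T.X k b * T.X (k + 1) (γ j)) * T.A γ δ (k + 2) l *
        T.X (k + 1) (δ j) := by simp only [mul_assoc]
    _ = T.X (k + 1) (α j) * (T.A α β (k + 2) l * T.X k (γ j)) * T.X (k + 1) b *
        (T.X k (β j) * T.A γ δ (k + 2) l) * T.X (k + 1) (δ j) := by
        rw [h1]; simp only [mul_assoc]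
    _ = _ := by rw [← c1, c2]; simp only [mul_assoc]

lemma push1 (k : ℕ) {p q : K} (h : p * q = q - 1) :
    T.e k * T.X (k + 1) p * T.X k q = T.e k * T.e (k + 1) := by
  simp only [X_def, add_mul, mul_add, smul_mul_assoc, mul_smul_comm, mul_one, T.ee, T.eee]
  linear_combination (norm := module) h • (T.e k - T.e k * T.e (k + 1))

lemma push2 (k : ℕ) {p q : K} (h : p * q = q - 1) :
    T.e (k + 1) * T.X k p * T.X (k + 1) q = T.e (k + 1) * T.e k := by
  simp only [X_def, add_mul, mul_add, smul_mul_assoc, mul_smul_comm, mul_one, T.ee, T.eee']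
  linear_combination (norm := module) h • (T.e (k + 1) - T.e (k + 1) * T.e k)

lemma eW {b : K} (l : List ι) : ∀ (k : ℕ), FCond α β γ δ b l →
    T.e k * T.W α β γ δ b k l = T.e k := by
  induction l with
  | nil => intro k _; simp only [W, A_nil, one_mul, mul_one, T.e_X]
  | cons j l ih =>
    intro k h
    have hj : j ∈ j :: l := List.mem_cons_self
    rw [T.W_cons k (h.h3 j hj)]
    calc _ = (T.e k * T.X (k + 1) (α j) * T.X k (γ j)) * T.W α β γ δ b (k + 1) l *
          (T.X k (β j) * T.X (k + 1) (δ j)) := by simp only [mul_assoc]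
      _ = T.e k * (T.e (k + 1) * T.W α β γ δ b (k + 1) l) *
          (T.X k (β j) * T.X (k + 1) (δ j)) := by
          rw [T.push1 k (h.h1 j hj)]; simp only [mul_assoc]
      _ = T.e k * (T.e (k + 1) * T.X k (β j) * T.X (k + 1) (δ j)) := by
          rw [ih (k + 1) h.tail]; simp only [mul_assoc]
      _ = T.e k := by rw [T.push2 k (h.h2 j hj), ← mul_assoc, T.eee]

lemma e_Phi (l : List ι) (k : ℕ) : T.e k * T.Phi α β k l = 0 := by
  cases l with
  | nil => simp only [Phi, mul_sub, mul_one, T.ee, sub_self]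
  | cons j l =>
    have : T.e k * (-1 + α j • T.e k + (1 - α j) • (T.e (k + 1) * T.e k)) = 0 := by
      simp only [mul_add, mul_neg, mul_one, mul_smul_comm, T.ee, ← mul_assoc, T.eee]
      module
    simp only [Phi]
    rw [mul_assoc (-1 + α j • T.e k + (1 - α j) • (T.e (k + 1) * T.e k)), ← mul_assoc (T.e k),
      this, zero_mul]

lemma Phi_e (l : List ι) (k : ℕ) : T.Phi α β k l * T.e k = 0 := by
  cases l with
  | nil => simp only [Phi, sub_mul, one_mul, T.ee, sub_self]
  | cons j l =>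
    have : (1 - T.e k) * T.e k = 0 := by rw [sub_mul, one_mul, T.ee, sub_self]
    simp only [Phi]
    rw [mul_assoc, mul_assoc _ (1 - T.e k), this, mul_zero, mul_zero]

lemma left_fuse {Z : End K V} (k : ℕ) {p q : K} (h : p * q = q - 1) (hZ : T.e (k + 1) * Z = 0) :
    T.X (k + 1) p * T.X k q * Z =
      (1 - q) • ((-1 + p • T.e k + (1 - p) • (T.e (k + 1) * T.e k)) * Z) := by
  simp only [X_def, add_mul, mul_add, smul_mul_assoc, mul_smul_comm, mul_one, one_mul, neg_mul, hZ]
  linear_combination (norm := module) h • Z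

lemma right_fuse (k : ℕ) {p q : K} (h : p * q = q - 1) :
    T.X k p * T.X (k + 1) q * (1 - T.e k) = (1 - q) •
      ((1 - T.e (k + 1)) * (-1 + (1 - p) • (T.e k * T.e (k + 1))) * (1 - T.e k)) := by
  have h2 := T.push2 k h
  have h3 : T.e (k + 1) * (T.X k p * T.X (k + 1) q * (1 - T.e k)) = 0 := by
    calc _ = T.e (k + 1) * T.X k p * T.X (k + 1) q * (1 - T.e k) := by simp only [mul_assoc]
      _ = 0 := by rw [h2, mul_sub, mul_one, mul_assoc, T.ee, sub_self]
  have h4 : T.X k p * T.X (k + 1) q * (1 - T.e k) =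
      (1 - T.e (k + 1)) * (T.X k p * T.X (k + 1) q * (1 - T.e k)) := by
    rw [sub_mul, one_mul, h3, sub_zero]
  rw [h4]
  simp only [X_def, add_mul, mul_add, smul_mul_assoc, mul_smul_comm, mul_one, one_mul, neg_mul,
    sub_mul, mul_sub, T.ee, mul_neg, ← mul_assoc, T.eee, T.eee']
  linear_combination (norm := module) h • (1 - T.e k - T.e (k + 1) + T.e (k + 1) * T.e k)

/-- the fused factorisation -/
lemma W_vanish {b : K} (l : List ι) : ∀ (k : ℕ), FCond α β γ δ b l →
    T.W α β γ δ b k l * (1 - T.e k) =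
      (b * (l.map fun j => (1 - γ j) * (1 - δ j)).prod) • T.Phi α β k l := by
  induction l with
  | nil =>
    intro k _
    simp only [W, A_nil, one_mul, mul_one, List.map_nil, List.prod_nil, Phi, X_def, add_mul,
      smul_mul_assoc, mul_sub, T.ee]
    module
  | cons j l ih =>
    intro k h
    have hj : j ∈ j :: l := List.mem_cons_self
    rw [T.W_cons k (h.h3 j hj), mul_assoc _ _ (1 - T.e k), T.right_fuse k (h.h2 j hj)]
    have h5 := ih (k + 1) h.tail
    have h6 := T.left_fuse k (h.h1 j hj) (T.e_Phi (α := α) (β := β) l (k + 1))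
    have h7 : T.Phi α β (k + 1) l * (1 - T.e (k + 1)) = T.Phi α β (k + 1) l := by
      rw [mul_sub, mul_one, T.Phi_e, sub_zero]
    set Z := (-1 + (1 - β j) • (T.e k * T.e (k + 1))) * (1 - T.e k) with hZ
    have h8 : T.Phi α β k (j :: l) =
        (-1 + α j • T.e k + (1 - α j) • (T.e (k + 1) * T.e k)) * T.Phi α β (k + 1) l * Z := by
      simp only [Phi]
      rw [mul_assoc (1 - T.e (k + 1)), ← hZ, ← mul_assoc _ (1 - T.e (k + 1)),
        mul_assoc _ (T.Phi α β (k + 1) l) (1 - T.e (k + 1)), h7]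
    calc _ = (1 - δ j) • (T.X (k + 1) (α j) * T.X k (γ j) *
          (T.W α β γ δ b (k + 1) l * (1 - T.e (k + 1))) * Z) := by
          rw [mul_smul_comm, hZ]; simp only [mul_assoc]
      _ = ((1 - δ j) * (b * (l.map fun j => (1 - γ j) * (1 - δ j)).prod)) •
          (T.X (k + 1) (α j) * T.X k (γ j) * T.Phi α β (k + 1) l * Z) := by
          rw [h5]; simp only [mul_smul_comm, smul_mul_assoc, smul_smul]
      _ = _ := by
          rw [h6, h8, smul_mul_assoc, smul_smul, List.map_cons, List.prod_cons]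
          congr 1
          ring

/-- FUSION: the functional relation with its explicit zero -/
theorem fusion {b : K} (l : List ι) (k : ℕ) (h : FCond α β γ δ b l) :
    (1 - b) • (T.D α β k l * T.D γ δ k l - 1) =
      -((b ^ 2 * (l.map fun j => (1 - γ j) * (1 - δ j)).prod) •
        (T.k k * (T.k (k + 1) * T.Phi α β (k + 2) l * T.c (k + 1)) * T.c k)) := by
  -- the two line identity on one more strand
  have key : ∀ m : ℕ, T.k m * (T.W α β γ δ b (m + 1) l * (1 - T.e (m + 1))) * T.c m =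
      (1 - b) • (T.A α β m l * (T.A γ δ m l - T.D γ δ (m + 1) l)) := by
    intro m
    have hA : T.k m * T.A α β (m + 2) l = T.A α β m l * T.k m := T.kA _ _ l le_rfl
    have hB : T.A γ δ (m + 2) l * T.c m = T.c m * T.A γ δ m l := T.Ac _ _ l le_rfl
    have e1 : T.k m * T.W α β γ δ b (m + 1) l * T.c m = T.A α β m l * T.A γ δ m l := by
      calc _ = (T.k m * T.A α β (m + 2) l) * T.X (m + 1) b * (T.A γ δ (m + 2) l * T.c m) := by
            simp only [W, mul_assoc]
        _ = T.A α β m l * (T.k m * T.X (m + 1) b * T.c m) * T.A γ δ m l := by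
            rw [hA, hB]; simp only [mul_assoc]
        _ = _ := by rw [T.kXc, mul_one]
    have e3 : T.k m * T.A γ δ (m + 2) l * T.c (m + 1) = T.A γ δ m l := by
      rw [T.kA _ _ l le_rfl, mul_assoc, T.kcr, mul_one]
    have e4 : T.k (m + 1) * T.A γ δ (m + 2) l * T.c (m + 1) = T.D γ δ (m + 1) l :=
      T.cap γ δ l (m + 1)
    have e2 : T.k m * (T.W α β γ δ b (m + 1) l * T.e (m + 1)) * T.c m =
        T.A α β m l * (b • T.A γ δ m l + (1 - b) • T.D γ δ (m + 1) l) := by
      calc _ = (T.k m * T.A α β (m + 2) l) * T.X (m + 1) b * T.A γ δ (m + 2) l *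
              (T.e (m + 1) * T.c m) := by simp only [W, mul_assoc]
        _ = T.A α β m l * (T.k m * T.X (m + 1) b * T.A γ δ (m + 2) l * T.c (m + 1)) := by
            rw [hA, T.e1c]; simp only [mul_assoc]
        _ = _ := by
            congr 1
            simp only [X_def, add_mul, mul_add, smul_mul_assoc, mul_smul_comm, mul_one, e3,
              T.ke1, e4]
    rw [mul_sub, mul_one, mul_sub, sub_mul, e1, e2, mul_sub]
    simp only [mul_add, mul_smul_comm]
    module
  have h1 := congrArg (fun Z => T.k k * Z * T.c k) (key (k + 1))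
  have h2 := T.W_vanish l (k + 2) h
  have h3 : T.k k * (T.A α β (k + 1) l * T.A γ δ (k + 1) l) * T.c k =
      T.k k * T.A α β (k + 1) l * T.A γ δ (k + 1) l * T.c k := by simp only [mul_assoc]
  have h4 : T.k k * (T.A α β (k + 1) l * T.D γ δ (k + 1 + 1) l) * T.c k =
      T.D α β k l * T.D γ δ k l := by
    rw [mul_assoc, mul_assoc, T.Dc _ _ l le_rfl, ← mul_assoc (T.A α β (k + 1) l), ← mul_assoc,
      ← mul_assoc, T.cap]
  have h5 : T.k k * (T.k (k + 1) * (T.W α β γ δ b (k + 1 + 1) l * (1 - T.e (k + 1 + 1)))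
      * T.c (k + 1)) * T.c k = (1 - b) • (T.k k * T.A α β (k + 1) l * T.A γ δ (k + 1) l * T.c k
        - T.D α β k l * T.D γ δ k l) := by
    rw [← h3, ← h4]
    simpa only [mul_sub, sub_mul, smul_mul_assoc, mul_smul_comm] using h1
  have h6 : b • (T.k k * T.A α β (k + 1) l * T.A γ δ (k + 1) l * T.c k) +
      (1 - b) • (T.D α β k l * T.D γ δ k l) = 1 := by
    have h7 : T.k k * T.W α β γ δ b k l * T.c k = 1 := by
      have h8 : T.k k * T.W α β γ δ b k l = T.k k := by
        have := congrArg (fun Z => T.k k * Z) (T.eW l k h)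
        simpa only [← mul_assoc, T.k_e] using this
      rw [h8, T.kc]
    rw [← h7, ← T.cap α β l k, ← T.cap γ δ l k]
    simp only [W, X_def, add_mul, mul_add, smul_mul_assoc, mul_smul_comm, mul_one, e_def,
      mul_assoc]
  rw [show k + 1 + 1 = k + 2 by ring, h2] at h5
  simp only [mul_smul_comm, smul_mul_assoc] at h5
  linear_combination (norm := module) b • h5 + (1 - b) • h6

end Tower

end Pool.Agent.Helper9.DR
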