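import Pool.Agent.Helper9.DR.Poly
import Pool.Agent.Helper78.DR.Scalar
import Pool.Agent.Helper78.DR.Spec

/-!
# Joint eigenvalues of the double row matrices of a planar tower satisfy `DR.Sol`
-/

namespace Pool.Agent.Helper9.DR

open Module Finset

variable {V : Type*} [AddCommGroup V] [Module ℂ V] (T : Tower ℂ V)

open Polynomial in
/-- a joint eigenvector gives a solution of the scalar functional relations -/
theorem sol_of_joint {n k : ℕ} {d : ℂ[X]} (hd : d.natDegree ≤ 2 * n) {v : V} (hv : v ≠ 0)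
    (h : ∀ p, T.Dh n k p v = d.eval p • v) : _root_.DR.Sol n d := by
  obtain ⟨g, hg⟩ : ∃ g : Module.Dual ℂ V, g v ≠ 0 := by
    by_contra hcon
    push Not at hcon
    exact hv ((Module.forall_dual_apply_eq_zero_iff ℂ v).1 hcon)
  have inj : ∀ a b : ℂ, a • v = b • v → a = b := fun a b hab => by
    have := congrArg g hab
    simp only [map_smul, smul_eq_mul] at this
    exact mul_right_cancel₀ hg this
  refine ⟨hd, fun p => inj _ _ ?_, inj _ _ ?_, ?_⟩
  · rw [← h, ← h, T.Dh_cross]
  · rw [← h, T.Dh_one, one_smul]; rfl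
  · obtain ⟨M, hM⟩ := T.Dh_fusion n k
    -- the scalar right hand side
    set R : ℂ[X] := ∑ i ∈ range (2 * n + 1), Polynomial.C (g (M i v) / g v) * X ^ i with hR
    have hR1 : ∀ p, g ((∑ i ∈ range (2 * n + 1), p ^ i • M i) v) = R.eval p * g v := by
      intro p
      simp only [LinearMap.sum_apply, LinearMap.smul_apply, map_sum, map_smul, smul_eq_mul]
      rw [hR, eval_finsetSum, sum_mul]
      refine sum_congr rfl fun i _ => ?_
      simp only [eval_mul, eval_C, eval_pow, eval_X]
      field_simp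
    set N : ℂ[X] := d * _root_.DR.hm (2 * n) d - X ^ (2 * n) with hN
    have hN1 : ∀ p : ℂ, p ≠ 0 →
        N.eval p = p ^ (2 * n) * (d.eval p * d.eval (1 - 1 / p) - 1) := by
      intro p hp
      rw [hN, eval_sub, eval_mul, _root_.DR.hm_eval hd hp, eval_pow, eval_X]
      ring
    have key : ∀ p : ℂ, p ≠ 0 → p * (2 - p) * (2 * p - 1) * N.eval p =
        (p + 1) ^ 2 * (1 - p) ^ (2 * n + 2) * R.eval p := by
      intro p hp
      have h1 := congrArg (fun Z : End ℂ V => g (Z v)) (hM p hp)
      simp only [LinearMap.smul_apply, map_smul, smul_eq_mul, hR1, LinearMap.sub_apply,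
        Module.End.mul_apply, h, Module.End.one_apply, map_sub] at h1
      rw [hN1 p hp]
      have : (p * (2 - p) * (2 * p - 1) * (p ^ (2 * n) * (d.eval p * d.eval (1 - 1 / p) - 1)) -
        (p + 1) ^ 2 * (1 - p) ^ (2 * n + 2) * R.eval p) * g v = 0 := by
        linear_combination h1
      exact sub_eq_zero.1 ((mul_eq_zero.1 this).resolve_right hg)
    have hpoly : X * (2 - X) * (2 * X - 1) * N = (1 - X) ^ (2 * n + 2) * ((X + 1) ^ 2 * R) := by
      refine Polynomial.eq_of_infinite_eval_eq _ _ ?_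
      refine ((Set.finite_singleton (0 : ℂ)).infinite_compl).mono fun p hp => ?_
      have hp' : p ≠ 0 := fun h => hp (by simp [h])
      have := key p hp'
      simp only [Set.mem_ofPred_eq, eval_mul, eval_X, eval_sub, eval_ofNat, eval_one, eval_pow,
        eval_add] at *
      linear_combination this
    have hdvd : (1 - X : ℂ[X]) ^ (2 * n + 2) ∣ N := by
      have hcop : IsCoprime ((1 - X : ℂ[X]) ^ (2 * n + 2)) (X * (2 - X) * (2 * X - 1)) := by
        apply IsCoprime.pow_left
        have e : (X - C 1 : ℂ[X]) = -(1 - X) := by simp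
        have h0 : IsCoprime (X - C 1 : ℂ[X]) (X * (2 - X) * (2 * X - 1)) := by
          rw [(Polynomial.irreducible_X_sub_C (1 : ℂ)).coprime_iff_not_dvd, dvd_iff_isRoot]
          simp only [IsRoot.def, eval_mul, eval_X, eval_sub, eval_ofNat, eval_one]
          norm_num
        rw [e] at h0
        simpa using h0.neg_left
      exact hcop.dvd_of_dvd_mul_left ⟨_, hpoly⟩
    obtain ⟨Q, hQ⟩ := hdvd
    refine ⟨Q, fun p hp => ?_⟩
    rw [← hN1 p hp, hQ]
    simp

/-- **spectral family**: for a finite dimensional space `U` sitting in the tower as an invariant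
subspace of the double row matrices, the traces of all words are given by finitely many polynomials
solving the functional relations -/
theorem spec_family {U : Type*} [AddCommGroup U] [Module ℂ U] [FiniteDimensional ℂ U]
    (n k : ℕ) (j : U →ₗ[ℂ] V) (hj : Function.Injective j) (DU : ℂ → End ℂ U)
    (h : ∀ p u, j (DU p u) = T.Dh n k p (j u)) :
    ∃ d : Fin (finrank ℂ U) → Polynomial ℂ, (∀ i, _root_.DR.Sol n (d i)) ∧
      (∀ i, ∃ v : U, v ≠ 0 ∧ ∀ p, DU p v = (d i).eval p • v) ∧
      ∀ l : List ℂ, LinearMap.trace ℂ U ((l.map DU).prod) =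
        ∑ i, (l.map (fun p => (d i).eval p)).prod := by
  obtain ⟨r, hr⟩ := j.exists_leftInverse_of_injective (LinearMap.ker_eq_bot.2 hj)
  obtain ⟨M, hM⟩ := T.Dh_coeff n k
  have hr' : ∀ u, r (j u) = u := fun u => LinearMap.congr_fun hr u
  have h1 : ∀ p, DU p = ∑ i ∈ range (2 * n + 1), p ^ i • (r ∘ₗ (M i) ∘ₗ j : End ℂ U) := by
    intro p
    ext u
    rw [← hr' (DU p u), h, hM]
    simp only [LinearMap.sum_apply, LinearMap.smul_apply, map_sum, map_smul, LinearMap.comp_apply]
  have h2 : ∀ p q, Commute (DU p) (DU q) := by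
    intro p q
    refine LinearMap.ext fun u => hj ?_
    rw [Module.End.mul_apply, Module.End.mul_apply, h, h, h, h, ← Module.End.mul_apply,
      T.Dh_comm, Module.End.mul_apply]
  obtain ⟨d, h3, h4, h5⟩ := _root_.DR.exists_spec _ DU h1 h2
  refine ⟨d, fun i => ?_, h4, h5⟩
  obtain ⟨v, hv, hd⟩ := h4 i
  refine sol_of_joint (k := k) T (h3 i) (v := j v) (fun h0 => hv (hj (by rw [h0, map_zero]))) fun p => ?_
  rw [← h, hd, map_smul]

end Pool.Agent.Helper9.DR
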